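import Pool.Agent.TH639.SE.Alg
import Pool.Agent.TH943.HJ.Bij

/-!
The Euler factors of the curves `y ^ m = g(x)` over finite fields, for powers `m` of `ℓ`, modulo `ℓ`.
-/

set_option autoImplicit false
set_option maxHeartbeats 1000000

open PowerSeries

namespace Pool.Agent.Y710.EE

open Pool.Agent.W313.Hyp Pool.Agent.W343.BSD
open Pool.Agent.TH639.SE (pow_one_mod one_sub_mod red one_sub_ne charP_series eulerProd_pow
  zeta_line)

section loc

/-- the least positive `o` such that `g ^ o` is an `m`-th power modulo `Q` -/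
noncomputable def powOrder {F : Type} [CommRing F] (m : ℕ) (g Q : Polynomial F) : ℕ :=
  sInf {o | 0 < o ∧ ∃ s : Polynomial F, Q ∣ g ^ o - s ^ m}

open Classical in
/-- the Euler factor of the Jacobian of `y ^ m = g(x)` at the closed point `Q` of degree `n` -/
noncomputable def lfm {F : Type} [CommRing F] (m : ℕ) (g Q : Polynomial F) (n : ℕ) :
    PowerSeries ℤ :=
  if Q ∣ g then 1 else (∑ i ∈ Finset.range (powOrder m g Q), (X ^ n) ^ i) *
    (1 - (X ^ n) ^ powOrder m g Q) ^ (m / powOrder m g Q - 1)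

variable {F : Type} [Field F]

theorem lfm_of_dvd {m : ℕ} {g Q : Polynomial F} {n : ℕ} (h : Q ∣ g) : lfm m g Q n = 1 := by
  unfold lfm
  rw [if_pos h]

theorem powOrder_spec {m : ℕ} (hm : 0 < m) (g Q : Polynomial F) :
    0 < powOrder m g Q ∧ ∃ s : Polynomial F, Q ∣ g ^ powOrder m g Q - s ^ m :=
  Nat.sInf_mem (s := {o | 0 < o ∧ ∃ s : Polynomial F, Q ∣ g ^ o - s ^ m})
    ⟨m, hm, g, by rw [sub_self]; exact dvd_zero _⟩

theorem powOrder_dvd {m : ℕ} (hm : 0 < m) {g Q : Polynomial F} (hQ : Irreducible Q)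
    (hg : ¬ Q ∣ g) : powOrder m g Q ∣ m := by
  obtain ⟨ho, s, hs⟩ := powOrder_spec hm g Q
  set o := powOrder m g Q with hod
  by_contra hnd
  have hr : 0 < m % o := Nat.pos_of_ne_zero fun h => hnd (Nat.dvd_of_mod_eq_zero h)
  have hlt : m % o < o := Nat.mod_lt _ ho
  have hfact : Fact (Irreducible Q) := ⟨hQ⟩
  have h1 : (AdjoinRoot.mk Q g) ^ o = (AdjoinRoot.mk Q s) ^ m := by
    rw [← map_pow, ← map_pow, ← sub_eq_zero, ← map_sub, AdjoinRoot.mk_eq_zero]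
    exact hs
  have hg0 : AdjoinRoot.mk Q g ≠ 0 := by
    rw [Ne, AdjoinRoot.mk_eq_zero]
    exact hg
  have hs0 : AdjoinRoot.mk Q s ≠ 0 := by
    intro h
    rw [h, zero_pow hm.ne'] at h1
    exact hg0 (pow_eq_zero_iff ho.ne' |>.1 h1)
  obtain ⟨u, hu⟩ := AdjoinRoot.mk_surjective (g := Q)
    (AdjoinRoot.mk Q g * ((AdjoinRoot.mk Q s) ^ (m / o))⁻¹)
  have h2 : (AdjoinRoot.mk Q g) ^ (m % o) = (AdjoinRoot.mk Q u) ^ m := by
    rw [hu, mul_pow]
    have h3 : (AdjoinRoot.mk Q g) ^ m =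
        (AdjoinRoot.mk Q g) ^ (m % o) * ((AdjoinRoot.mk Q s) ^ (m / o)) ^ m := by
      conv_lhs => rw [← Nat.mod_add_div m o]
      rw [pow_add, pow_mul, h1, ← pow_mul, ← pow_mul, mul_comm m (m / o)]
    rw [h3, inv_pow, mul_assoc, mul_inv_cancel₀ (pow_ne_zero _ (pow_ne_zero _ hs0)), mul_one]
  have h4 : Q ∣ g ^ (m % o) - u ^ m := by
    rw [← AdjoinRoot.mk_eq_zero, map_sub, map_pow, map_pow, h2, sub_self]
  have h5 : o ≤ m % o := Nat.sInf_le ⟨hr, u, h4⟩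
  omega

theorem lfm_mod {m : ℕ} (hm : 0 < m) (g Q : Polynomial F) (n : ℕ) :
    (X : PowerSeries ℤ) ^ n ∣ lfm m g Q n - 1 := by
  unfold lfm
  obtain ⟨ho, _⟩ := powOrder_spec hm g Q
  split_ifs
  · rw [sub_self]; exact dvd_zero _
  · obtain ⟨o, ho'⟩ : ∃ o, powOrder m g Q = o + 1 := ⟨powOrder m g Q - 1, by omega⟩
    rw [ho']
    refine one_mod_mul ?_ (pow_one_mod ?_ _)
    · rw [Finset.sum_range_succ', pow_zero, add_sub_cancel_right]
      refine Finset.dvd_sum fun i _ => ?_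
      rw [pow_succ]
      exact dvd_mul_left _ _
    · rw [← pow_mul]
      exact one_sub_mod (Nat.le_mul_of_pos_right _ (Nat.succ_pos o))

variable {ℓ : ℕ}

theorem one_sub_pow_pow' [Fact ℓ.Prime] (y : PowerSeries (ZMod ℓ)) (b : ℕ) :
    1 - y ^ ℓ ^ b = (1 - y) ^ ℓ ^ b := by
  have := charP_series (ℓ := ℓ)
  rw [sub_pow_char_pow, one_pow]

theorem red_lfm [hp : Fact ℓ.Prime] {r : ℕ} {g Q : Polynomial F} (hQ : Irreducible Q) {n : ℕ}
    (hn : 0 < n) (h : ¬ Q ∣ g) :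
    red ℓ (lfm (ℓ ^ r) g Q n) = (1 - X ^ n) ^ (ℓ ^ r - 1) := by
  have hm : 0 < ℓ ^ r := Nat.pow_pos hp.out.pos
  obtain ⟨j, hj, ho⟩ := (Nat.dvd_prime_pow hp.out).1 (powOrder_dvd hm hQ h)
  unfold lfm
  rw [if_neg h, ho, map_mul, map_sum, map_pow, map_sub, map_one, map_pow, map_pow,
    PowerSeries.map_X]
  have h1 : ∑ i ∈ Finset.range (ℓ ^ j), red ℓ ((X ^ n) ^ i) =
      ∑ i ∈ Finset.range (ℓ ^ j), (X ^ n : PowerSeries (ZMod ℓ)) ^ i := by
    refine Finset.sum_congr rfl fun i _ => ?_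
    rw [map_pow, map_pow, PowerSeries.map_X]
  rw [h1, one_sub_pow_pow', ← pow_mul]
  apply mul_left_cancel₀ (one_sub_ne (R := ZMod ℓ) hn)
  rw [← mul_assoc, mul_neg_geom_sum, one_sub_pow_pow', ← pow_add, ← pow_succ',
    Nat.sub_add_cancel hm]
  congr 1
  have h2 : ℓ ^ j * (ℓ ^ r / ℓ ^ j) = ℓ ^ r := Nat.mul_div_cancel' (pow_dvd_pow ℓ hj)
  have h3 : 0 < ℓ ^ r / ℓ ^ j := by
    rcases Nat.eq_zero_or_pos (ℓ ^ r / ℓ ^ j) with h0 | h0
    · rw [h0, mul_zero] at h2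
      omega
    · exact h0
  obtain ⟨c, hc⟩ : ∃ c, ℓ ^ r / ℓ ^ j = c + 1 := ⟨ℓ ^ r / ℓ ^ j - 1, by omega⟩
  rw [hc] at h2 ⊢
  rw [← h2, Nat.add_sub_cancel]
  ring

/-- the product over the closed points of the line -/
noncomputable def lcm' (m : ℕ) (g : Polynomial F) (d : ℕ) : PowerSeries ℤ :=
  eulerProd (fun P : MI F => d * P.1.natDegree) (fun P => lfm m g P.1 (d * P.1.natDegree))

theorem lcm'_mod_one [Finite F] {m : ℕ} (hm : 0 < m) (g : Polynomial F) {d : ℕ} (hd : 0 < d) :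
    (X : PowerSeries ℤ) ^ d ∣ lcm' m g d - 1 :=
  euler_one_mod (finite_d hd) (fun P => lfm_mod hm g P.1 _) d fun P =>
    (pow_dvd_pow _ (Nat.le_mul_of_pos_right _ (MI.deg_pos P))).trans (lfm_mod hm g P.1 _)

/-- the local identity -/
theorem lcm'_red [hp : Fact ℓ.Prime] [Finite F] (hF : ((Nat.card F : ℕ) : ZMod ℓ) = 1) {r : ℕ}
    {g : Polynomial F} (h0 : g ≠ 0) {d : ℕ} (hd : 0 < d) :
    red ℓ (lcm' (ℓ ^ r) g d) * (∏ P ∈ facs g, (1 - X ^ (d * P.1.natDegree))) ^ (ℓ ^ r - 1) =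
      (1 - X ^ d) ^ (ℓ ^ r - 1) := by
  have hm : 0 < ℓ ^ r := Nat.pow_pos hp.out.pos
  have hpos : ∀ P : MI F, 0 < d * P.1.natDegree := fun P => Nat.mul_pos hd (MI.deg_pos P)
  have h1 : ∀ P : MI F, (X : PowerSeries (ZMod ℓ)) ^ (d * P.1.natDegree) ∣
      (1 - X ^ (d * P.1.natDegree)) - 1 := fun P => one_sub_mod le_rfl
  have h2 : ∀ P : MI F, (X : PowerSeries (ZMod ℓ)) ^ (d * P.1.natDegree) ∣
      red ℓ (lfm (ℓ ^ r) g P.1 (d * P.1.natDegree)) - 1 := fun P => by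
    have h3 := map_dvd (red ℓ) (lfm_mod hm g P.1 (d * P.1.natDegree))
    rwa [map_sub, map_one, map_pow, PowerSeries.map_X] at h3
  have key := fin_factor' (finite_d hd)
    (F := fun P : MI F => (1 - X ^ (d * P.1.natDegree) : PowerSeries (ZMod ℓ)) ^ (ℓ ^ r - 1))
    (fun P => pow_one_mod (h1 P) _) h2 (facs g) (fun P hP => by
      rw [red_lfm P.2.2 (hpos P) (fun hPh => hP ((mem_facs h0 P).2 hPh))])
  have h4 : ∏ P ∈ facs g, red ℓ (lfm (ℓ ^ r) g P.1 (d * P.1.natDegree)) = 1 :=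
    Finset.prod_eq_one fun P hP => by
      rw [lfm_of_dvd ((mem_facs h0 P).1 hP), map_one]
  rw [h4, mul_one, eulerProd_pow (finite_d hd) h1, zeta_line hF hd, Finset.prod_pow] at key
  have h5 : red ℓ (lcm' (ℓ ^ r) g d) = eulerProd (fun P : MI F => d * P.1.natDegree)
      (fun P => red ℓ (lfm (ℓ ^ r) g P.1 (d * P.1.natDegree))) := by
    unfold lcm'
    exact map_eulerProd (finite_d hd) _
  rw [h5, ← key]

end loc

end Pool.Agent.Y710.EE
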