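import Pool.Agent.Y710.EE.Fld
import Pool.Agent.Y710.EE.Loc

/-!
The Euler factor at a place over the place `P` of the `t`-line, modulo `ℓ`.
-/

set_option autoImplicit false
set_option maxHeartbeats 1000000

open PowerSeries

namespace Pool.Agent.Y710.EE

open Pool.Agent.W313.Hyp Pool.Agent.W343.BSD Pool.Agent.TH639.SE
open Pool.Agent.TH943.HJ (RF finRF fd1 finrank_RF fib fib_ne fib_natDegree comp_ne prod_local)

section

/-- The polynomial `A(x) - t` in `x` over the field `F`, for a homomorphism `φ` from the polynomials in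
`t`. -/
noncomputable def fibre {k F : Type} [Field k] [CommRing F] (A : Polynomial k)
    (φ : Polynomial k →+* F) : Polynomial F :=
  A.map (φ.comp Polynomial.C) - Polynomial.C (φ Polynomial.X)

variable {k : Type} [Field k] {ℓ : ℕ}

variable (ℓ) in
/-- the product of `1 - X ^ deg R` over the prime factors `R` of `P(A(x))` -/
noncomputable def Psi' (A : Polynomial k) (P : MI k) : PowerSeries (ZMod ℓ) :=
  ∏ R ∈ facs (P.1.comp A), (1 - X ^ R.1.natDegree)

theorem fibre_ne {F : Type} [Field F] {A : Polynomial k} (hA : 0 < A.natDegree)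
    (φ : Polynomial k →+* F) : fibre A φ ≠ 0 := by
  intro h
  have h1 : (fibre A φ).natDegree = A.natDegree := by
    unfold fibre
    rw [Polynomial.natDegree_sub_C, Polynomial.natDegree_map]
  rw [h, Polynomial.natDegree_zero] at h1
  omega

/-- the homomorphism from the residue field at `P` -/
noncomputable def resHom {F : Type} [Field F] (φ : Polynomial k →+* F) (P : MI k)
    (hP : φ P.1 = 0) : RF P →+* F :=
  Ideal.Quotient.lift (Ideal.span {P.1}) φ (fun a ha => by
    obtain ⟨c, rfl⟩ := Ideal.mem_span_singleton'.1 ha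
    rw [map_mul, hP, mul_zero])

theorem resHom_mk {F : Type} [Field F] (φ : Polynomial k →+* F) (P : MI k)
    (hP : φ P.1 = 0) (a : Polynomial k) : resHom φ P hP (AdjoinRoot.mk P.1 a) = φ a :=
  Ideal.Quotient.lift_mk _ _ _

theorem fibre_eq {F : Type} [Field F] (φ : Polynomial k →+* F) (P : MI k)
    (hP : φ P.1 = 0) (A : Polynomial k) : fibre A φ = (fib A P).map (resHom φ P hP) := by
  unfold fibre fib
  rw [Polynomial.map_sub, Polynomial.map_map, Polynomial.map_C]
  congr 2

variable [Finite k] [hp : Fact ℓ.Prime]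

theorem ZF_fibre {F : Type} [Field F] [Finite F] (φ : Polynomial k →+* F) (P : MI k)
    (hP : φ P.1 = 0) {A : Polynomial k} (hA : 0 < A.natDegree) {b : ℕ}
    (hc : Nat.card F = Nat.card (RF P) ^ ℓ ^ b) :
    ZF ℓ (fibre A φ) (P.1.natDegree * ℓ ^ b) = Psi' ℓ A P ^ ℓ ^ b := by
  have hfin := finRF P
  let _ : Algebra (RF P) F := (resHom φ P hP).toAlgebra
  have hb : Module.finrank (RF P) F = ℓ ^ b := by
    have h1 := Module.natCard_eq_pow_finrank (K := RF P) (V := F)
    rw [hc] at h1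
    exact (Nat.pow_right_injective (Finite.one_lt_card (α := RF P)) h1).symm
  have h2 : fibre A φ = (fib A P).map (algebraMap (RF P) F) := fibre_eq φ P hP A
  rw [h2, ZF_ext hb (fib_ne hA P)]
  congr 1
  exact prod_local A P (fib_ne hA P) (comp_ne hA P) (fun n => (1 - X ^ n : PowerSeries (ZMod ℓ)))

theorem card_mod (hq : ((Nat.card k : ℕ) : ZMod ℓ) = 1) {F : Type} (P : MI k) {f : ℕ}
    (hc : Nat.card F = Nat.card (RF P) ^ f) : ((Nat.card F : ℕ) : ZMod ℓ) = 1 := by
  rw [hc, Nat.cast_pow, card_RFl hq P, one_pow]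

/-- the identity for one place -/
theorem place_id (hq : ((Nat.card k : ℕ) : ZMod ℓ) = 1) {F : Type} [Field F] [Finite F]
    (φ : Polynomial k →+* F) (P : MI k) (hP : φ P.1 = 0) {A : Polynomial k}
    (hA : 0 < A.natDegree) {b r : ℕ} (hc : Nat.card F = Nat.card (RF P) ^ ℓ ^ b) :
    red ℓ (lcm' (ℓ ^ r) (fibre A φ) (P.1.natDegree * ℓ ^ b)) *
        Psi' ℓ A P ^ (ℓ ^ b * (ℓ ^ r - 1)) =
      (1 - X ^ P.1.natDegree) ^ (ℓ ^ b * (ℓ ^ r - 1)) := by
  have hd : 0 < P.1.natDegree * ℓ ^ b := Nat.mul_pos (MI.deg_pos P) (Nat.pow_pos hp.out.pos)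
  have h1 := lcm'_red (r := r) (card_mod hq P hc) (fibre_ne hA φ) hd
  have h2 : ∏ Q ∈ facs (fibre A φ), (1 - X ^ (P.1.natDegree * ℓ ^ b * Q.1.natDegree) :
      PowerSeries (ZMod ℓ)) = ZF ℓ (fibre A φ) (P.1.natDegree * ℓ ^ b) := rfl
  rw [h2, ZF_fibre φ P hP hA hc, ← pow_mul, pow_mul X, one_sub_pow_pow, ← pow_mul] at h1
  exact h1

end

end Pool.Agent.Y710.EE
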