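import Pool.Agent.Y710.EE.Id

/-!
The bound for Galois extensions of `k(t)` of degree a power of `ℓ`.
-/

set_option autoImplicit false
set_option maxHeartbeats 1000000

open Polynomial

namespace Pool.Agent.Y710.EE

open Pool.Agent.W313.Hyp

section

variable {k : Type} [Field k] [Finite k] {L : Type} [Field L] [Algebra k[X] L]
  [Algebra (RatFunc k) L] [IsScalarTower k[X] (RatFunc k) L] [FiniteDimensional (RatFunc k) L]
  [IsGalois (RatFunc k) L]

theorem main {ℓ : ℕ} (hℓ : ℓ.Prime) (hq : ((Nat.card k : ℕ) : ZMod ℓ) = 1) {A : k[X]}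
    (hA : 0 < A.natDegree) {a r : ℕ} (hd : Module.finrank (RatFunc k) L = ℓ ^ a)
    (R : Finset (MI k)) (hR : ∀ P, P ∉ R → ramE (integralClosure k[X] L) P = 1) (m : ℕ) (H : ℤ[X])
    (hH : LE (integralClosure k[X] L) (ℓ ^ r) A = (((1 - C (Nat.card k : ℤ) * X) ^ m * H :
      ℤ[X]) : PowerSeries ℤ)) :
    m + (ℓ ^ r - 1) * ∑ P ∈ R, (ℓ ^ a - ℓ ^ a / ramE (integralClosure k[X] L) P) *
        ℓ ^ padicValNat ℓ P.1.natDegree ≤
      (ℓ ^ r - 1) * ∑ P ∈ R, (ℓ ^ a - ℓ ^ a / ramE (integralClosure k[X] L) P) *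
        ∑ Q ∈ facs (P.1.comp A), ℓ ^ padicValNat ℓ Q.1.natDegree := by
  have : Fact ℓ.Prime := ⟨hℓ⟩
  have h1 : IsFractionRing (integralClosure k[X] L) L :=
    integralClosure.isFractionRing_of_finite_extension (RatFunc k) L
  have h2 : Module.Finite k[X] (integralClosure k[X] L) :=
    IsIntegralClosure.finite k[X] (RatFunc k) L (integralClosure k[X] L)
  have h3 : IsGaloisGroup Gal(L/RatFunc k) k[X] (integralClosure k[X] L) :=
    IsGaloisGroup.of_isFractionRing Gal(L/RatFunc k) k[X] (integralClosure k[X] L) (RatFunc k) L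
  have h4 : FaithfulSMul k[X] L := by
    rw [faithfulSMul_iff_algebraMap_injective, IsScalarTower.algebraMap_eq k[X] (RatFunc k) L]
    exact (algebraMap (RatFunc k) L).injective.comp (IsFractionRing.injective k[X] (RatFunc k))
  have h5 : Module.IsTorsionFree k[X] L := inferInstance
  have h6 : Module.IsTorsionFree k[X] (integralClosure k[X] L) := inferInstance
  have h7 : Module.Flat k[X] (integralClosure k[X] L) := inferInstance
  have h8 : Nat.card Gal(L/RatFunc k) = ℓ ^ a := by
    rw [IsGalois.card_aut_eq_finrank, hd]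
  exact order_le (B := integralClosure k[X] L) Gal(L/RatFunc k) hq hA h8 R hR m H hH

end

end Pool.Agent.Y710.EE
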