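import Pool.Agent.TH639.SE.Alg
import Pool.Agent.TH943.HJ.Bij

/-!
The factors of a polynomial over a finite field in an extension of degree a power of `ℓ`, modulo `ℓ`.
-/

set_option autoImplicit false
set_option maxHeartbeats 1000000

open PowerSeries

namespace Pool.Agent.Y710.EE

open Pool.Agent.W313.Hyp Pool.Agent.W343.BSD Pool.Agent.TH639.SE
open Pool.Agent.TH943.HJ (RF finRF fd1 finrank_RF)
open Pool.Agent.TH943.LP (prod_facs_map)

section

variable (ℓ : ℕ)

/-- the product of `1 - X ^ (d deg Q)` over the prime factors `Q` of `g` -/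
noncomputable def ZF {F : Type} [Field F] (g : Polynomial F) (d : ℕ) : PowerSeries (ZMod ℓ) :=
  ∏ Q ∈ facs g, (1 - X ^ (d * Q.1.natDegree))

variable {ℓ}

theorem irreducible_map {F F' : Type} [Field F] [Field F'] (e : F ≃+* F') {g : Polynomial F}
    (hg : Irreducible g) : Irreducible (g.map (e : F →+* F')) := by
  have h := (MulEquiv.irreducible_iff (Polynomial.mapEquiv e) (x := g)).2 hg
  exact h

/-- transport of monic irreducible polynomials -/
noncomputable def mapMI {F F' : Type} [Field F] [Field F'] (e : F ≃+* F') (Q : MI F) : MI F' :=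
  ⟨Q.1.map (e : F →+* F'), Q.2.1.map _, irreducible_map e Q.2.2⟩

theorem ZF_equiv {F F' : Type} [Field F] [Field F'] [Finite F] [Finite F'] (e : F ≃+* F')
    {g : Polynomial F}
    (hg : g ≠ 0) (d : ℕ) : ZF ℓ (g.map (e : F →+* F')) d = ZF ℓ g d := by
  have hinj : Function.Injective (e : F →+* F') := e.injective
  have hg' : g.map (e : F →+* F') ≠ 0 := (Polynomial.map_ne_zero_iff hinj).2 hg
  unfold ZF
  symm
  refine Finset.prod_bij (fun Q _ => mapMI e Q) ?_ ?_ ?_ ?_
  · intro Q hQ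
    rw [mem_facs hg] at hQ
    rw [mem_facs hg']
    exact Polynomial.map_dvd _ hQ
  · intro Q _ Q' _ h
    have h1 : Q.1.map (e : F →+* F') = Q'.1.map (e : F →+* F') := congrArg Subtype.val h
    exact Subtype.ext (Polynomial.map_injective _ hinj h1)
  · intro Q hQ
    rw [mem_facs hg'] at hQ
    have h2 : (mapMI e.symm Q).1 ∣ g := by
      have h3 := Polynomial.map_dvd (e.symm : F' →+* F) hQ
      rw [Polynomial.map_map] at h3
      have h4 : (e.symm : F' →+* F).comp (e : F →+* F') = RingHom.id F := by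
        ext x
        simp
      rw [h4, Polynomial.map_id] at h3
      exact h3
    refine ⟨mapMI e.symm Q, (mem_facs hg _).2 h2, ?_⟩
    apply Subtype.ext
    show (Q.1.map (e.symm : F' →+* F)).map (e : F →+* F') = Q.1
    rw [Polynomial.map_map]
    have h4 : (e : F →+* F').comp (e.symm : F' →+* F) = RingHom.id F' := by
      ext x
      simp
    rw [h4, Polynomial.map_id]
  · intro Q _
    show _ = (1 - X ^ (d * (Q.1.map (e : F →+* F')).natDegree) : PowerSeries (ZMod ℓ))
    rw [Polynomial.natDegree_map_eq_of_injective hinj]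

variable [hp : Fact ℓ.Prime]

theorem one_sub_pow_pow (y : PowerSeries (ZMod ℓ)) (b : ℕ) : 1 - y ^ ℓ ^ b = (1 - y) ^ ℓ ^ b := by
  have := charP_series (ℓ := ℓ)
  rw [sub_pow_char_pow, one_pow]

theorem pow_lcm (d b δ : ℕ) :
    (1 - X ^ (d * Nat.lcm (ℓ ^ b) δ) : PowerSeries (ZMod ℓ)) ^ Nat.gcd (ℓ ^ b) δ =
      (1 - X ^ (d * δ)) ^ ℓ ^ b := by
  obtain ⟨c, hc, hg⟩ := (Nat.dvd_prime_pow hp.out).1 (Nat.gcd_dvd_left (ℓ ^ b) δ)
  have h1 := Nat.gcd_mul_lcm (ℓ ^ b) δ
  rw [hg] at h1
  have h2 : Nat.lcm (ℓ ^ b) δ = δ * ℓ ^ (b - c) := by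
    apply Nat.eq_of_mul_eq_mul_left (Nat.pow_pos (n := c) hp.out.pos)
    rw [h1]
    calc ℓ ^ b * δ = ℓ ^ (c + (b - c)) * δ := by rw [Nat.add_sub_cancel' hc]
      _ = ℓ ^ c * (δ * ℓ ^ (b - c)) := by rw [pow_add]; ring
  rw [hg, h2, ← mul_assoc, pow_mul, one_sub_pow_pow, ← pow_mul, ← pow_add,
    Nat.sub_add_cancel hc]

omit hp in
theorem exists_adjoin {F F' : Type} [Field F] [Field F'] [Finite F] [Finite F'] [Algebra F F'] :
    ∃ P : MI F, P.1.natDegree = Module.finrank F F' ∧ Nonempty (RF P ≃ₐ[F] F') := by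
  have hfin : Module.Finite F F' := Module.Finite.of_finite
  obtain ⟨α, hα⟩ := Field.exists_primitive_element F F'
  have hint : IsIntegral F α := Algebra.IsIntegral.isIntegral α
  refine ⟨⟨minpoly F α, minpoly.monic hint, minpoly.irreducible hint⟩,
    (Field.primitive_element_iff_minpoly_natDegree_eq F α).1 hα, ⟨?_⟩⟩
  exact ((IntermediateField.adjoinRootEquivAdjoin F hint).trans
      (IntermediateField.equivOfEq hα)).trans IntermediateField.topEquiv

theorem ZF_ext {F F' : Type} [Field F] [Field F'] [Finite F] [Finite F'] [Algebra F F'] {b : ℕ}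
    (hb : Module.finrank F F' = ℓ ^ b) {g : Polynomial F} (hg : g ≠ 0) (d : ℕ) :
    ZF ℓ (g.map (algebraMap F F')) (d * ℓ ^ b) = ZF ℓ g d ^ ℓ ^ b := by
  obtain ⟨P, hdeg, ⟨ψ⟩⟩ := exists_adjoin (F := F) (F' := F')
  rw [hb] at hdeg
  have h1 : g.map (algebraMap F F') =
      (g.map (algebraMap F (RF P))).map ((ψ : RF P ≃+* F') : RF P →+* F') := by
    rw [Polynomial.map_map]
    congr 1
    ext x
    exact (ψ.commutes x).symm
  have h2 : g.map (algebraMap F (RF P)) ≠ 0 :=
    (Polynomial.map_ne_zero_iff (algebraMap F (RF P)).injective).2 hg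
  have hfinP := finRF P
  rw [h1, ZF_equiv (ψ : RF P ≃+* F') h2]
  unfold ZF
  have h3 := prod_facs_map hg P (fun n => (1 - X ^ (d * n) : PowerSeries (ZMod ℓ)))
  rw [hdeg] at h3
  rw [← Finset.prod_pow]
  refine Eq.trans ?_ (h3.trans ?_)
  · refine Finset.prod_congr rfl fun Q _ => ?_
    rw [mul_assoc]
  · refine Finset.prod_congr rfl fun R _ => ?_
    exact pow_lcm d b R.1.natDegree

end

end Pool.Agent.Y710.EE
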