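import Pool.Agent.Y710.EE.Plc

/-!
The `L`-function over a Galois extension of degree a power of `ℓ`, modulo `ℓ`.
-/

set_option autoImplicit false
set_option maxHeartbeats 1000000

open PowerSeries

namespace Pool.Agent.Y710.EE

open Pool.Agent.W313.Hyp Pool.Agent.W343.BSD Pool.Agent.TH639.SE
open Pool.Agent.TH943.HJ (RF finRF fd1 finrank_RF exists_over over_unique comp_ne)

section

variable {k : Type} [Field k] {B : Type} [CommRing B] [Algebra (Polynomial k) B]

noncomputable instance fieldRes (w : MaximalSpectrum B) : Field (B ⧸ w.asIdeal) :=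
  Ideal.Quotient.field w.asIdeal

variable (k) in
/-- the degree of a place -/
noncomputable def placeDeg (w : MaximalSpectrum B) : ℕ :=
  Nat.log (Nat.card k) (Nat.card (B ⧸ w.asIdeal))

variable (B) in
/-- the `L`-function -/
noncomputable def LE (m : ℕ) (A : Polynomial k) : PowerSeries ℤ :=
  eulerProd (fun z : (Σ w : MaximalSpectrum B, MI (B ⧸ w.asIdeal)) =>
      placeDeg k z.1 * z.2.1.natDegree)
    (fun z => lfm m (fibre A (resMap z.1)) z.2.1 (placeDeg k z.1 * z.2.1.natDegree))

variable [Finite k] [Module.Finite (Polynomial k) B] [IsDomain B] [Module.Flat (Polynomial k) B]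
  (G : Type) [Group G] [Finite G] [MulSemiringAction G B] [IsGaloisGroup G (Polynomial k) B]

include G in
theorem placeDeg_eq {P : MI k} {w : MaximalSpectrum B} (h : resMap w P.1 = 0) :
    placeDeg k w = P.1.natDegree * resF B P := by
  have h1 : Nat.card (RF P) = Nat.card k ^ P.1.natDegree := by
    have := fd1 P
    rw [Module.natCard_eq_pow_finrank (K := k) (V := RF P), finrank_RF]
  unfold placeDeg
  rw [card_res G h, h1, ← pow_mul, Nat.log_pow Finite.one_lt_card]

include G in
theorem resF_pos (P : MI k) : 0 < resF B P := by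
  have h := fund (B := B) G P
  rcases Nat.eq_zero_or_pos (resF B P) with h0 | h0
  · rw [h0, mul_zero, mul_zero] at h
    exact absurd h.symm Nat.card_pos.ne'
  · exact h0

variable (k) in
include k G in
theorem finite_res (w : MaximalSpectrum B) : Finite (B ⧸ w.asIdeal) := by
  obtain ⟨P, hP⟩ := exists_place (k := k) w
  have h1 := card_res G hP
  have h2 := finRF P
  have h3 : Nat.card (B ⧸ w.asIdeal) ≠ 0 := by
    rw [h1]
    exact pow_ne_zero _ Nat.card_pos.ne'
  exact Nat.finite_of_card_ne_zero h3

include G in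
theorem placeDeg_pos (w : MaximalSpectrum B) : 0 < placeDeg k w := by
  obtain ⟨P, hP⟩ := exists_place (k := k) w
  rw [placeDeg_eq G hP]
  exact Nat.mul_pos (MI.deg_pos P) (resF_pos G P)

include G in
theorem finite_places (n : ℕ) : {w : MaximalSpectrum B | placeDeg k w ≤ n}.Finite := by
  refine ((finite_deg_le (F := k) n).biUnion (t := fun P => (placesOver B P : Set _))
    (fun P _ => Finset.finite_toSet _)).subset ?_
  intro w hw
  obtain ⟨P, hP⟩ := exists_place (k := k) w
  rw [Set.mem_iUnion₂]
  refine ⟨P, ?_, Finset.mem_coe.2 (mem_placesOver.2 hP)⟩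
  have h1 : placeDeg k w ≤ n := hw
  rw [placeDeg_eq G hP] at h1
  exact (Nat.le_mul_of_pos_right _ (resF_pos (B := B) G P)).trans h1

include G in
theorem LE_eq {m : ℕ} (hm : 0 < m) (A : Polynomial k) :
    LE B m A = eulerProd (fun P : MI k => P.1.natDegree)
      (fun P => ∏ w ∈ placesOver B P, lcm' m (fibre A (resMap w)) (placeDeg k w)) := by
  have hfr : ∀ w : MaximalSpectrum B, Finite (B ⧸ w.asIdeal) := finite_res k G
  unfold LE
  rw [eulerProd_sigma (ι := MaximalSpectrum B) (κ := fun w => MI (B ⧸ w.asIdeal))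
    (d := fun w => placeDeg k w) (e := fun w Q => Q.1.natDegree)
    (finite_places G) (placeDeg_pos G) (fun w n => finite_deg_le n) (fun w Q => MI.deg_pos Q) _
    (fun p => lfm_mod hm _ _ _)]
  symm
  exact eulerProd_fiber (d := fun P : MI k => P.1.natDegree)
    (d' := fun w : MaximalSpectrum B => placeDeg k w)
    (fun n => finite_deg_le (F := k) n) (finite_places G)
    (f' := fun w => lcm' m (fibre A (resMap w)) (placeDeg k w))
    (fun w => lcm'_mod_one hm _ (placeDeg_pos G w)) (fun P => placesOver B P)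
    (fun w => by
      obtain ⟨P, hP⟩ := exists_place (k := k) w
      exact ⟨P, mem_placesOver.2 hP⟩)
    (fun P P' w h h' => place_unique (mem_placesOver.1 h) (mem_placesOver.1 h'))
    (fun P w hw => by
      rw [placeDeg_eq G (mem_placesOver.1 hw)]
      exact Nat.le_mul_of_pos_right _ (resF_pos (B := B) G P))

variable {ℓ : ℕ} [hp : Fact ℓ.Prime]

theorem eulerProd_Psi' (hq : ((Nat.card k : ℕ) : ZMod ℓ) = 1) {A : Polynomial k}
    (hA : 0 < A.natDegree) :
    eulerProd (fun P : MI k => P.1.natDegree) (fun P => Psi' ℓ A P) = 1 - X := by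
  have h1 := zeta_line (F := k) hq one_pos
  simp only [one_mul, pow_one] at h1
  rw [← h1]
  exact eulerProd_fiber (d := fun P : MI k => P.1.natDegree)
    (d' := fun R : MI k => R.1.natDegree)
    (fun n => finite_deg_le (F := k) n) (fun n => finite_deg_le (F := k) n)
    (f' := fun R => (1 - X ^ R.1.natDegree : PowerSeries (ZMod ℓ)))
    (fun R => one_sub_mod le_rfl) (fun P => facs (P.1.comp A))
    (fun R => by
      obtain ⟨P, hP⟩ := exists_over (f := A) R
      exact ⟨P, (mem_facs (comp_ne hA P) R).2 hP⟩)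
    (fun P P' R h h' => over_unique R P P' ((mem_facs (comp_ne hA P) R).1 h)
      ((mem_facs (comp_ne hA P') R).1 h'))
    (fun P R hR => by
      obtain ⟨Q, hQ, hQR⟩ := Pool.Agent.TH943.HJ.down_surj R ((mem_facs (comp_ne hA P) R).1 hR)
      rw [← hQR, Pool.Agent.TH943.HJ.down_deg Q hQ]
      exact Nat.le_mul_of_pos_right _ (MI.deg_pos Q))

theorem Psi'_mod {A : Polynomial k} (hA : 0 < A.natDegree) (P : MI k) :
    (X : PowerSeries (ZMod ℓ)) ^ P.1.natDegree ∣ Psi' ℓ A P - 1 := by
  have h := prod_congr_mod (facs (P.1.comp A))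
    (fun R => ((1 - X ^ R.1.natDegree) : PowerSeries (ZMod ℓ))) (fun _ => 1) P.1.natDegree
      (fun R hR => one_sub_mod (by
        obtain ⟨Q, hQ, hQR⟩ := Pool.Agent.TH943.HJ.down_surj R ((mem_facs (comp_ne hA P) R).1 hR)
        rw [← hQR, Pool.Agent.TH943.HJ.down_deg Q hQ]
        exact Nat.le_mul_of_pos_right _ (MI.deg_pos Q)))
  rwa [Finset.prod_const_one] at h

end

end Pool.Agent.Y710.EE
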