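import Pool.Agent.Y710.EE.Glob

/-!
The identity modulo `ℓ` for the `L`-function over a Galois extension of degree a power of `ℓ`, and the
bound for the order of vanishing.
-/

set_option autoImplicit false
set_option maxHeartbeats 1000000

open PowerSeries

namespace Pool.Agent.Y710.EE

open Pool.Agent.W313.Hyp Pool.Agent.W343.BSD Pool.Agent.TH639.SE
open Pool.Agent.TH943.HJ (RF finRF fd1 finrank_RF exists_over over_unique comp_ne)

section

variable {k : Type} [Field k] {B : Type} [CommRing B] [Algebra (Polynomial k) B]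
  [Finite k] [Module.Finite (Polynomial k) B] [IsDomain B] [Module.Flat (Polynomial k) B]
  (G : Type) [Group G] [Finite G] [MulSemiringAction G B] [IsGaloisGroup G (Polynomial k) B]
  {ℓ : ℕ} [hp : Fact ℓ.Prime]

include G in
theorem place_prod (hq : ((Nat.card k : ℕ) : ZMod ℓ) = 1) {A : Polynomial k}
    (hA : 0 < A.natDegree) {a r : ℕ} (hG : Nat.card G = ℓ ^ a) (P : MI k) :
    (∏ w ∈ placesOver B P, red ℓ (lcm' (ℓ ^ r) (fibre A (resMap w)) (placeDeg k w))) *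
        Psi' ℓ A P ^ (ℓ ^ a / ramE B P * (ℓ ^ r - 1)) =
      (1 - X ^ P.1.natDegree) ^ (ℓ ^ a / ramE B P * (ℓ ^ r - 1)) := by
  have hfund := fund (B := B) G P
  rw [hG] at hfund
  obtain ⟨b, _, hb⟩ := (Nat.dvd_prime_pow hp.out).1
    (show resF B P ∣ ℓ ^ a from ⟨(placesOver B P).card * ramE B P, by rw [← hfund]; ring⟩)
  have he : 0 < ramE B P := by
    rcases Nat.eq_zero_or_pos (ramE B P) with h0 | h0
    · rw [h0, zero_mul, mul_zero] at hfund
      exact absurd hfund.symm (pow_ne_zero a hp.out.ne_zero)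
    · exact h0
  have hc : ℓ ^ a / ramE B P = (placesOver B P).card * ℓ ^ b := by
    rw [← hfund, hb]
    rw [show (placesOver B P).card * (ramE B P * ℓ ^ b) =
      ramE B P * ((placesOver B P).card * ℓ ^ b) by ring]
    exact Nat.mul_div_cancel_left _ he
  have h1 : ∀ w ∈ placesOver B P, red ℓ (lcm' (ℓ ^ r) (fibre A (resMap w)) (placeDeg k w)) *
      Psi' ℓ A P ^ (ℓ ^ b * (ℓ ^ r - 1)) = (1 - X ^ P.1.natDegree) ^ (ℓ ^ b * (ℓ ^ r - 1)) := by
    intro w hw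
    rw [mem_placesOver] at hw
    have hfin := finite_res k G w
    rw [placeDeg_eq G hw, hb]
    exact place_id hq (resMap w) P hw hA (by rw [card_res G hw, hb])
  have h2 := Finset.prod_congr rfl h1
  rw [Finset.prod_mul_distrib, Finset.prod_const, Finset.prod_const, ← pow_mul, ← pow_mul] at h2
  rw [hc]
  rw [show (placesOver B P).card * ℓ ^ b * (ℓ ^ r - 1) = ℓ ^ b * (ℓ ^ r - 1) * (placesOver B P).card by
    ring]
  exact h2

include G in
theorem identity (hq : ((Nat.card k : ℕ) : ZMod ℓ) = 1) {A : Polynomial k}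
    (hA : 0 < A.natDegree) {a r : ℕ} (hG : Nat.card G = ℓ ^ a) (R : Finset (MI k))
    (hR : ∀ P, P ∉ R → ramE B P = 1) :
    red ℓ (LE B (ℓ ^ r) A) * ∏ P ∈ R, (1 - X ^ P.1.natDegree) ^ (ℓ ^ a * (ℓ ^ r - 1)) =
      ∏ P ∈ R, ((1 - X ^ P.1.natDegree) ^ (ℓ ^ a / ramE B P * (ℓ ^ r - 1)) *
        Psi' ℓ A P ^ ((ℓ ^ a - ℓ ^ a / ramE B P) * (ℓ ^ r - 1))) := by
  have hm0 : 0 < ℓ ^ r := Nat.pow_pos hp.out.pos
  have hfd := fun n => finite_deg_le (F := k) n
  set M := ℓ ^ a * (ℓ ^ r - 1) with hM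
  set W : MI k → PowerSeries (ZMod ℓ) := fun P =>
    ∏ w ∈ placesOver B P, red ℓ (lcm' (ℓ ^ r) (fibre A (resMap w)) (placeDeg k w)) with hW
  have hdP : ∀ P : MI k, (X : PowerSeries (ZMod ℓ)) ^ P.1.natDegree ∣
      (1 - X ^ P.1.natDegree) - 1 := fun P => one_sub_mod le_rfl
  have hWm : ∀ P : MI k, (X : PowerSeries (ZMod ℓ)) ^ P.1.natDegree ∣ W P - 1 := by
    intro P
    have h := prod_congr_mod (placesOver B P)
      (fun w => red ℓ (lcm' (ℓ ^ r) (fibre A (resMap w)) (placeDeg k w))) (fun _ => 1) P.1.natDegree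
      (fun w hw => by
        rw [mem_placesOver] at hw
        have hfin := finite_res k G w
        have h3 := map_dvd (red ℓ) (lcm'_mod_one hm0 (fibre A (resMap w)) (placeDeg_pos (k := k) G w))
        rw [map_sub, map_one, map_pow, PowerSeries.map_X] at h3
        refine (pow_dvd_pow _ ?_).trans h3
        rw [placeDeg_eq G hw]
        exact Nat.le_mul_of_pos_right _ (resF_pos (B := B) G P))
    rwa [Finset.prod_const_one] at h
  have hL : red ℓ (LE B (ℓ ^ r) A) = eulerProd (fun P : MI k => P.1.natDegree) W := by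
    rw [LE_eq G hm0 A, map_eulerProd hfd]
    congr 1
    funext P
    rw [map_prod]
  have key := fin_factor' (F := fun P => W P * Psi' ℓ A P ^ M)
    (W := fun P : MI k => (1 - X ^ P.1.natDegree : PowerSeries (ZMod ℓ)) ^ M) hfd
    (fun P => one_mod_mul (hWm P) (pow_one_mod (Psi'_mod hA P) M))
    (fun P => pow_one_mod (hdP P) M) R (fun P hP => by
      have h1 := place_prod (B := B) (r := r) G hq hA hG P
      rw [hR P hP, Nat.div_one] at h1
      exact h1)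
  rw [eulerProd_mul hfd hWm (fun P => pow_one_mod (Psi'_mod hA P) M),
    Pool.Agent.TH639.SE.eulerProd_pow hfd (fun P => Psi'_mod hA P) M, eulerProd_Psi' hq hA, ← hL,
    Pool.Agent.TH639.SE.eulerProd_pow hfd hdP M] at key
  have hz := zeta_line (F := k) hq one_pos
  simp only [one_mul, pow_one] at hz
  rw [hz] at key
  have hne : ((1 - X : PowerSeries (ZMod ℓ)) ^ M) ≠ 0 := by
    apply pow_ne_zero
    have := one_sub_ne (R := ZMod ℓ) one_pos
    rwa [pow_one] at this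
  apply mul_left_cancel₀ hne
  have h5 : ∏ P ∈ R, (W P * Psi' ℓ A P ^ M) =
      ∏ P ∈ R, ((1 - X ^ P.1.natDegree) ^ (ℓ ^ a / ramE B P * (ℓ ^ r - 1)) *
        Psi' ℓ A P ^ ((ℓ ^ a - ℓ ^ a / ramE B P) * (ℓ ^ r - 1))) := by
    refine Finset.prod_congr rfl fun P _ => ?_
    have h1 := place_prod (B := B) (r := r) G hq hA hG P
    have h2 : M = ℓ ^ a / ramE B P * (ℓ ^ r - 1) + (ℓ ^ a - ℓ ^ a / ramE B P) * (ℓ ^ r - 1) := by
      rw [hM, ← Nat.add_mul, Nat.add_sub_cancel' (Nat.div_le_self _ _)]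
    rw [h2, pow_add, ← mul_assoc]
    congr 1
  rw [← h5, ← key]
  ring

/-- the bound for the order of vanishing -/
theorem order_le (hq : ((Nat.card k : ℕ) : ZMod ℓ) = 1) {A : Polynomial k}
    (hA : 0 < A.natDegree) {a r : ℕ} (hG : Nat.card G = ℓ ^ a) (R : Finset (MI k))
    (hR : ∀ P, P ∉ R → ramE B P = 1) (m : ℕ) (H : Polynomial ℤ)
    (hH : LE B (ℓ ^ r) A = (((1 - Polynomial.C (Nat.card k : ℤ) * Polynomial.X) ^ m * H :
      Polynomial ℤ) : PowerSeries ℤ)) :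
    m + (ℓ ^ r - 1) * ∑ P ∈ R, (ℓ ^ a - ℓ ^ a / ramE B P) * ℓ ^ padicValNat ℓ P.1.natDegree ≤
      (ℓ ^ r - 1) * ∑ P ∈ R, (ℓ ^ a - ℓ ^ a / ramE B P) *
        ∑ Q ∈ facs (P.1.comp A), ℓ ^ padicValNat ℓ Q.1.natDegree := by
  have hid := identity (B := B) (r := r) G hq hA hG R hR
  have hmuP : ∀ P : MI k, IsMu (Psi' ℓ A P)
      (∑ Q ∈ facs (P.1.comp A), ℓ ^ padicValNat ℓ Q.1.natDegree) := fun P =>
    IsMu.prod _ fun Q _ => IsMu.zf (MI.deg_pos Q)
  have hr := IsMu.prod R (p := fun P => ((1 - X ^ P.1.natDegree) ^ (ℓ ^ a / ramE B P * (ℓ ^ r - 1)) *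
        Psi' ℓ A P ^ ((ℓ ^ a - ℓ ^ a / ramE B P) * (ℓ ^ r - 1))))
      (m := fun P => (ℓ ^ a / ramE B P * (ℓ ^ r - 1)) * ℓ ^ padicValNat ℓ P.1.natDegree +
        ((ℓ ^ a - ℓ ^ a / ramE B P) * (ℓ ^ r - 1)) *
          ∑ Q ∈ facs (P.1.comp A), ℓ ^ padicValNat ℓ Q.1.natDegree)
      (fun P _ => ((IsMu.zf (MI.deg_pos P)).pow _).mul ((hmuP P).pow _))
  have hl := IsMu.prod R (p := fun P => ((1 - X ^ P.1.natDegree : PowerSeries (ZMod ℓ)) ^
        (ℓ ^ a * (ℓ ^ r - 1))))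
      (m := fun P => (ℓ ^ a * (ℓ ^ r - 1)) * ℓ ^ padicValNat ℓ P.1.natDegree)
      (fun P _ => ((IsMu.zf (MI.deg_pos P)).pow _))
  obtain ⟨A1, hA1, hA0, hAm⟩ := hl
  obtain ⟨B1, hB1, hB0, hBm⟩ := hr
  rw [← hA1, ← hB1, hH] at hid
  set φ := Int.castRingHom (ZMod ℓ) with hφ
  have hred : red ℓ (((1 - Polynomial.C (Nat.card k : ℤ) * Polynomial.X) ^ m * H :
      Polynomial ℤ) : PowerSeries ℤ) = (((1 - Polynomial.X) ^ m * H.map φ :
        Polynomial (ZMod ℓ)) : PowerSeries (ZMod ℓ)) := by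
    have h3 : φ (Nat.card k : ℤ) = 1 := by
      rw [hφ, eq_intCast]
      exact_mod_cast hq
    have h4 : ((1 - Polynomial.C (Nat.card k : ℤ) * Polynomial.X) ^ m * H).map φ =
        (1 - Polynomial.X) ^ m * H.map φ := by
      rw [Polynomial.map_mul, Polynomial.map_pow, Polynomial.map_sub, Polynomial.map_one,
        Polynomial.map_mul, Polynomial.map_C, Polynomial.map_X, h3, Polynomial.C_1, one_mul]
    rw [← h4]
    ext n
    rw [PowerSeries.coeff_map, Polynomial.coeff_coe, Polynomial.coeff_coe, Polynomial.coeff_map]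
  rw [hred, ← Polynomial.coe_mul] at hid
  have hpoly := Polynomial.coe_injective (ZMod ℓ) hid
  have hX : (1 - Polynomial.X : Polynomial (ZMod ℓ)) ≠ 0 := by
    have h1 := Pool.Agent.W309.T3.binom_ne (F := ZMod ℓ) (c := 1) one_pos
    rwa [Polynomial.C_1, one_mul, pow_one] at h1
  have hXm : (1 - Polynomial.X : Polynomial (ZMod ℓ)).rootMultiplicity 1 = 1 := by
    have h2 := Pool.Agent.W309.T3.rm_binom ℓ (c := 1) (x := 1) one_ne_zero one_pos
    rwa [Polynomial.C_1, one_mul, pow_one, if_pos (by simp), padicValNat_one_right, pow_zero] at h2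
  have hL0 : (1 - Polynomial.X) ^ m * H.map φ ≠ 0 := by
    intro h
    rw [h, zero_mul] at hpoly
    exact hB0 hpoly.symm
  have hrm := congrArg (Polynomial.rootMultiplicity 1) hpoly
  rw [rm_mul 1 hL0 hA0, hAm, hBm, rm_mul 1 (left_ne_zero_of_mul hL0) (right_ne_zero_of_mul hL0),
    rm_pow 1 hX, hXm, mul_one] at hrm
  have hsplit : ∑ P ∈ R, (ℓ ^ a * (ℓ ^ r - 1)) * ℓ ^ padicValNat ℓ P.1.natDegree =
      ∑ P ∈ R, (ℓ ^ a / ramE B P * (ℓ ^ r - 1)) * ℓ ^ padicValNat ℓ P.1.natDegree +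
      (ℓ ^ r - 1) * ∑ P ∈ R, (ℓ ^ a - ℓ ^ a / ramE B P) * ℓ ^ padicValNat ℓ P.1.natDegree := by
    rw [Finset.mul_sum, ← Finset.sum_add_distrib]
    refine Finset.sum_congr rfl fun P _ => ?_
    have h2 : ℓ ^ a = ℓ ^ a / ramE B P + (ℓ ^ a - ℓ ^ a / ramE B P) :=
      (Nat.add_sub_cancel' (Nat.div_le_self _ _)).symm
    conv_lhs => rw [h2]
    ring
  rw [hsplit, Finset.sum_add_distrib] at hrm
  have h9 : ∑ P ∈ R, ((ℓ ^ a - ℓ ^ a / ramE B P) * (ℓ ^ r - 1)) *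
          ∑ Q ∈ facs (P.1.comp A), ℓ ^ padicValNat ℓ Q.1.natDegree =
      (ℓ ^ r - 1) * ∑ P ∈ R, (ℓ ^ a - ℓ ^ a / ramE B P) *
        ∑ Q ∈ facs (P.1.comp A), ℓ ^ padicValNat ℓ Q.1.natDegree := by
    rw [Finset.mul_sum]
    refine Finset.sum_congr rfl fun P _ => ?_
    ring
  rw [h9] at hrm
  omega

end

end Pool.Agent.Y710.EE
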