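import Pool.Agent.Y710.EE.Fin

/-!
Places over which there is only one point of the `x`-line.
-/

set_option autoImplicit false
set_option maxHeartbeats 1000000

open Polynomial

namespace Pool.Agent.Y710.EE

open Pool.Agent.W313.Hyp
open Pool.Agent.TH943.HJ (RF finRF fib fib_ne fib_natDegree comp_ne down down_deg down_dvd down_surj
  down_inj)

section

theorem natDegree_of_unique {F : Type} [Field F] {g : F[X]} (hg : g ≠ 0) (Q : MI F)
    (h : ∀ Q' : MI F, Q'.1 ∣ g → Q' = Q) : ∃ e : ℕ, g.natDegree = e * Q.1.natDegree := by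
  classical
  have h1 : ∀ u ∈ UniqueFactorizationMonoid.normalizedFactors g, u = Q.1 := by
    intro u hu
    have h2 := UniqueFactorizationMonoid.irreducible_of_normalized_factor u hu
    have h3 : u.Monic := by
      have h4 := UniqueFactorizationMonoid.normalize_normalized_factor u hu
      rw [← h4]
      exact Polynomial.monic_normalize h2.ne_zero
    exact congrArg Subtype.val
      (h ⟨u, h3, h2⟩ (UniqueFactorizationMonoid.dvd_of_mem_normalizedFactors hu))
  have h5 : UniqueFactorizationMonoid.normalizedFactors g =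
      Multiset.replicate (Multiset.card (UniqueFactorizationMonoid.normalizedFactors g)) Q.1 :=
    Multiset.eq_replicate.2 ⟨rfl, h1⟩
  refine ⟨Multiset.card (UniqueFactorizationMonoid.normalizedFactors g), ?_⟩
  have h6 := UniqueFactorizationMonoid.prod_normalizedFactors hg
  rw [h5, Multiset.prod_replicate] at h6
  rw [← natDegree_eq_of_degree_eq (degree_eq_degree_of_associated h6), natDegree_pow]

variable {k : Type} [Field k] [Finite k]

theorem one_point {ℓ : ℕ} (hℓ : ℓ.Prime) {A : k[X]} (hA : 0 < A.natDegree)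
    (hn : ¬ ℓ ∣ A.natDegree) (P : MI k)
    (h : ∀ Q Q' : MI k, Q.1 ∣ P.1.comp A → Q'.1 ∣ P.1.comp A → Q = Q') :
    ∑ Q ∈ facs (P.1.comp A), ℓ ^ padicValNat ℓ Q.1.natDegree =
      ℓ ^ padicValNat ℓ P.1.natDegree := by
  have hF : Fact ℓ.Prime := ⟨hℓ⟩
  have hfin := finRF P
  obtain ⟨Q', hQ'⟩ : ∃ Q' : MI (RF P), Q'.1 ∣ fib A P := by
    have h1 : 0 < (fib A P).natDegree := by rwa [fib_natDegree hA]
    obtain ⟨u, hu, hd⟩ := Polynomial.exists_monic_irreducible_factor (fib A P)
      (Polynomial.not_isUnit_of_natDegree_pos _ h1)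
    exact ⟨⟨u, hu, hd.1⟩, hd.2⟩
  have h2 : facs (P.1.comp A) = {down Q'} := by
    ext R
    rw [mem_facs (comp_ne hA P), Finset.mem_singleton]
    constructor
    · intro hR
      exact h R (down Q') hR (down_dvd Q' hQ')
    · rintro rfl
      exact down_dvd Q' hQ'
  obtain ⟨e, he⟩ := natDegree_of_unique (fib_ne hA P) Q' (fun Q'' hQ'' =>
    down_inj Q'' Q' hQ'' hQ' (h _ _ (down_dvd Q'' hQ'') (down_dvd Q' hQ')))
  rw [fib_natDegree hA] at he
  have h3 : ¬ ℓ ∣ Q'.1.natDegree := fun hd => hn (he ▸ hd.mul_left e)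
  rw [h2, Finset.sum_singleton, down_deg Q' hQ',
    padicValNat.mul (MI.deg_pos P).ne' (MI.deg_pos Q').ne',
    padicValNat.eq_zero_of_not_dvd h3, add_zero]

end

end Pool.Agent.Y710.EE
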