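import Pool.Agent.Y710.EE.Fib
import Pool.Agent.TH943.HJ.Fin

/-!
The places of a Galois extension over the places of the `t`-line.
-/

set_option autoImplicit false
set_option maxHeartbeats 1000000

open Polynomial

namespace Pool.Agent.Y710.EE

open Pool.Agent.W313.Hyp Pool.Agent.TH943.HJ

section

variable {k : Type} [Field k] {B : Type} [CommRing B] [Algebra k[X] B]

/-- reduction at the place `w` of polynomials in `t` -/
noncomputable def resMap (w : MaximalSpectrum B) : k[X] →+* B ⧸ w.asIdeal :=
  (Ideal.Quotient.mk w.asIdeal).comp (algebraMap k[X] B)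

instance spanMax (P : MI k) : (Ideal.span {P.1} : Ideal k[X]).IsMaximal :=
  PrincipalIdealRing.isMaximal_of_irreducible P.2.2

theorem resMap_eq_zero {w : MaximalSpectrum B} {a : k[X]} :
    resMap w a = 0 ↔ algebraMap k[X] B a ∈ w.asIdeal :=
  Ideal.Quotient.eq_zero_iff_mem

theorem under_eq {w : MaximalSpectrum B} {P : MI k} (h : resMap w P.1 = 0) :
    w.asIdeal.LiesOver (Ideal.span {P.1}) := by
  constructor
  rw [resMap_eq_zero] at h
  refine (spanMax P).eq_of_le ?_ ?_
  · exact Ideal.IsPrime.ne_top (Ideal.IsPrime.under k[X] w.asIdeal)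
  · rw [Ideal.span_singleton_le_iff_mem]
    exact h

theorem resMap_of_liesOver {w : MaximalSpectrum B} {P : MI k}
    (h : w.asIdeal.LiesOver (Ideal.span {P.1})) : resMap w P.1 = 0 := by
  rw [resMap_eq_zero]
  exact (Ideal.mem_of_liesOver w.asIdeal (Ideal.span {P.1}) P.1).1 (Ideal.mem_span_singleton_self _)

theorem place_unique {w : MaximalSpectrum B} {P P' : MI k} (h : resMap w P.1 = 0)
    (h' : resMap w P'.1 = 0) : P = P' := by
  have h1 := (under_eq h).over
  have h2 := (under_eq h').over
  rw [← h2] at h1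
  have h3 : P'.1 ∣ P.1 := by
    rw [← Ideal.mem_span_singleton, ← h1]
    exact Ideal.mem_span_singleton_self _
  exact (eq_of_dvd_MI h3).symm

variable [Module.Finite k[X] B]

theorem exists_place (w : MaximalSpectrum B) : ∃ P : MI k, resMap w P.1 = 0 := by
  have hmax : (w.asIdeal.under k[X]).IsMaximal := Ideal.IsMaximal.under k[X] w.asIdeal
  have hne : w.asIdeal.under k[X] ≠ ⊥ := by
    intro h
    rw [h] at hmax
    exact Polynomial.not_isField k (Ring.isField_iff_maximal_bot.2 hmax)
  obtain ⟨g, hg⟩ := (IsPrincipalIdealRing.principal (w.asIdeal.under k[X])).principal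
  have hg' : w.asIdeal.under k[X] = Ideal.span {g} := hg
  have hg0 : g ≠ 0 := by
    rintro rfl
    apply hne
    rw [hg', Ideal.span_singleton_eq_bot]
  have hprime : Prime g := by
    rw [← Ideal.span_singleton_prime hg0, ← hg']
    exact hmax.isPrime
  obtain ⟨P, δ, _, hP⟩ := exists_MI_eq hprime.irreducible
  refine ⟨P, resMap_eq_zero.2 ?_⟩
  have h1 : P.1 ∈ w.asIdeal.under k[X] := by
    rw [hg', Ideal.mem_span_singleton]
    have hδ : IsUnit (C δ) := by
      rw [isUnit_C, isUnit_iff_ne_zero]
      rintro rfl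
      rw [C_0, zero_mul] at hP
      exact hg0 hP
    rw [hP]
    exact (hδ.mul_left_dvd).2 dvd_rfl
  exact h1

theorem finite_over (P : MI k) : {w : MaximalSpectrum B | resMap w P.1 = 0}.Finite := by
  have h1 : ((Ideal.span {P.1} : Ideal k[X]).primesOver B).Finite :=
    Algebra.QuasiFinite.finite_primesOver _
  refine Set.Finite.of_finite_image (f := fun w : MaximalSpectrum B => w.asIdeal)
    (h1.subset ?_) ?_
  · rintro _ ⟨w, hw, rfl⟩
    exact ⟨w.isMaximal.isPrime, under_eq hw⟩
  · intro w _ w' _ h
    exact MaximalSpectrum.ext h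

variable (B) in
/-- the places over `P` -/
noncomputable def placesOver (P : MI k) : Finset (MaximalSpectrum B) := (finite_over P).toFinset

theorem mem_placesOver {P : MI k} {w : MaximalSpectrum B} :
    w ∈ placesOver B P ↔ resMap w P.1 = 0 := by
  unfold placesOver
  rw [Set.Finite.mem_toFinset]
  rfl

theorem card_placesOver (P : MI k) :
    (placesOver B P).card = ((Ideal.span {P.1} : Ideal k[X]).primesOver B).ncard := by
  rw [← Set.ncard_coe_finset]
  have h1 : ((Ideal.span {P.1} : Ideal k[X]).primesOver B) =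
      (fun w : MaximalSpectrum B => w.asIdeal) '' (placesOver B P : Set (MaximalSpectrum B)) := by
    ext Q
    constructor
    · rintro ⟨h2, h3⟩
      have h4 : Q.IsMaximal := by
        have h5 : (Q.under k[X]).IsMaximal := by
          rw [← h3.over]
          exact spanMax P
        exact Ideal.isMaximal_of_isIntegral_of_isMaximal_comap Q h5
      refine ⟨⟨Q, h4⟩, ?_, rfl⟩
      rw [Finset.mem_coe, mem_placesOver]
      exact resMap_of_liesOver h3
    · rintro ⟨w, hw, rfl⟩
      rw [Finset.mem_coe, mem_placesOver] at hw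
      exact ⟨w.isMaximal.isPrime, under_eq hw⟩
  rw [h1]
  exact (Set.ncard_image_of_injective _ (fun w w' h => MaximalSpectrum.ext h)).symm

variable [IsDomain B] [Module.Flat k[X] B] (G : Type) [Group G] [Finite G] [MulSemiringAction G B]
  [IsGaloisGroup G k[X] B]

/-- the ramification index over `P` -/
noncomputable abbrev ramE (B : Type) [CommRing B] [Algebra k[X] B] (P : MI k) : ℕ :=
  Ideal.ramificationIdxIn (Ideal.span {P.1} : Ideal k[X]) B

/-- the residue degree over `P` -/
noncomputable abbrev resF (B : Type) [CommRing B] [Algebra k[X] B] (P : MI k) : ℕ :=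
  Ideal.inertiaDegIn (Ideal.span {P.1} : Ideal k[X]) B

include G in
theorem fund (P : MI k) : (placesOver B P).card * (ramE B P * resF B P) = Nat.card G := by
  rw [card_placesOver]
  exact Ideal.ncard_primesOver_mul_ramificationIdxIn_mul_inertiaDegIn _ B G

include G in
theorem card_res {P : MI k} {w : MaximalSpectrum B} (h : resMap w P.1 = 0) :
    Nat.card (B ⧸ w.asIdeal) = Nat.card (RF P) ^ resF B P := by
  have hl := under_eq h
  have h1 : resF B P = w.asIdeal.inertiaDeg k[X] :=
    Ideal.inertiaDegIn_eq_inertiaDeg (Ideal.span {P.1}) w.asIdeal G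
  rw [h1, Ideal.inertiaDeg_eq_of_isMaximal (Ideal.span {P.1}) w.asIdeal]
  let _ : Field (k[X] ⧸ (Ideal.span {P.1} : Ideal k[X])) := Ideal.Quotient.field _
  exact Module.natCard_eq_pow_finrank (K := k[X] ⧸ (Ideal.span {P.1} : Ideal k[X]))
    (V := B ⧸ w.asIdeal)

end

end Pool.Agent.Y710.EE
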